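import Mathlib

set_option autoImplicit false
set_option linter.unusedSectionVars false

namespace Pool.Agent.H.MP_0764b2_an

open Filter Topology BoundedContinuousFunction

variable (𝕜 : Type) [RCLike 𝕜]

/-- bounded functions on pairs that vanish as the first coordinate grows -/
def N : Submodule 𝕜 (ℕ × ℕ →ᵇ 𝕜) where
  carrier := {f | Tendsto f (comap Prod.fst atTop) (𝓝 0)}
  add_mem' := fun {f g} hf hg => by
    have := Tendsto.add hf hg
    rw [add_zero] at this
    exact this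
  zero_mem' := tendsto_const_nhds
  smul_mem' := fun c f hf => by
    have := Tendsto.const_smul hf c
    rw [smul_zero] at this
    exact this

instance N_closed : IsClosed (N 𝕜 : Set (ℕ × ℕ →ᵇ 𝕜)) := by
  refine isClosed_of_closure_subset fun f hf => ?_
  change Tendsto f (comap Prod.fst atTop) (𝓝 0)
  rw [Metric.tendsto_nhds]
  intro ε hε
  obtain ⟨g, hg, hd⟩ := Metric.mem_closure_iff.1 hf (ε / 2) (by positivity)
  have hg' : Tendsto g (comap Prod.fst atTop) (𝓝 0) := hg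
  filter_upwards [Metric.tendsto_nhds.1 hg' (ε / 2) (by positivity)] with i hi
  have := dist_coe_le_dist (f := f) (g := g) i
  linarith [dist_triangle (f i) (g i) 0]

open Classical in
noncomputable def code (s : Set ℕ) (n : ℕ) : ℕ :=
  Encodable.encode ((Finset.range n).filter (· ∈ s))

lemma code_ne {s t : Set ℕ} (h : s ≠ t) : ∀ᶠ n in atTop, code s n ≠ code t n := by
  obtain ⟨a, ha⟩ : ∃ a, ¬ (a ∈ s ↔ a ∈ t) := by
    by_contra h'
    push Not at h'
    exact h (Set.ext h')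
  filter_upwards [eventually_gt_atTop a] with n hn e
  have := Encodable.encode_injective e
  apply ha
  have h2 := congrArg (fun u : Finset ℕ => a ∈ u) this
  simpa [hn] using h2

noncomputable def ind (s : Set ℕ) : ℕ × ℕ →ᵇ 𝕜 :=
  ofNormedAddCommGroupDiscrete (fun i => if i.2 = code s i.1 then 1 else 0) 1 fun i => by
    split_ifs <;> simp

lemma ind_apply (s : Set ℕ) (i : ℕ × ℕ) : ind 𝕜 s i = if i.2 = code s i.1 then 1 else 0 := rfl

theorem nonsplit (L : (ℕ × ℕ →ᵇ 𝕜) →L[𝕜] (ℕ × ℕ →ᵇ 𝕜)) (h1 : ∀ z, L z - z ∈ N 𝕜)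
    (h2 : ∀ z ∈ N 𝕜, ‖L z‖ ≤ 1 / 2 * ‖z‖) : False := by
  classical
  have h3 : ∀ s : Set ℕ, ∃ i : ℕ × ℕ, ‖L (ind 𝕜 s) i - 1‖ < 1 / 4 := by
    intro s
    have h : Tendsto (L (ind 𝕜 s) - ind 𝕜 s) (comap Prod.fst atTop) (𝓝 0) := h1 _
    have ht : Tendsto (fun n => (n, code s n)) atTop (comap Prod.fst atTop) :=
      tendsto_comap_iff.2 tendsto_id
    obtain ⟨n, hn⟩ := (Metric.tendsto_nhds.1 (h.comp ht) (1 / 4) (by norm_num)).exists
    refine ⟨(n, code s n), ?_⟩
    simpa [ind_apply] using hn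
  choose φ hφ using h3
  obtain ⟨i, hi⟩ : ∃ i, (φ ⁻¹' {i}).Infinite := by
    by_contra h
    push Not at h
    have : (Set.univ : Set (Set ℕ)).Countable := by
      have := Set.countable_iUnion fun i => (h i).countable
      refine this.mono fun s _ => Set.mem_iUnion.2 ⟨φ s, rfl⟩
    obtain ⟨f, hf⟩ := (Set.countable_univ_iff.1 this).exists_injective_nat
    exact Function.cantor_injective f hf
  obtain ⟨k, hk⟩ := exists_nat_gt (4 * ‖L‖)
  obtain ⟨F, hF, hFk⟩ := hi.exists_subset_card_eq k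
  have h4 : ∀ᶠ n in atTop, ∀ s ∈ F, ∀ t ∈ F, s ≠ t → code s n ≠ code t n := by
    rw [eventually_all_finset]
    intro s _
    rw [eventually_all_finset]
    intro t _
    by_cases h : s = t
    · simp [h]
    · filter_upwards [code_ne h] with n hn _ using hn
  obtain ⟨M, hM⟩ := eventually_atTop.1 h4
  let z : ℕ × ℕ →ᵇ 𝕜 := ∑ s ∈ F, ind 𝕜 s
  have hz : ∀ j, ‖z j‖ ≤ k := by
    intro j
    refine (z.norm_coe_le_norm j).trans ((norm_sum_le _ _).trans ?_)
    rw [← hFk, Finset.card_eq_sum_ones, Nat.cast_sum]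
    refine Finset.sum_le_sum fun s _ => (norm_le (by simp)).2 fun j => ?_
    rw [ind_apply]; split_ifs <;> simp
  let u : ℕ × ℕ →ᵇ 𝕜 := ofNormedAddCommGroupDiscrete (fun j => if j.1 < M then z j else 0) k
    fun j => by
      split_ifs
      · exact hz j
      · simp
  have hu : ∀ j, u j = if j.1 < M then z j else 0 := fun _ => rfl
  have hu1 : ‖u‖ ≤ k := (norm_le (by positivity)).2 fun j => by
    rw [hu]
    split_ifs
    · exact hz j
    · simp
  have hu2 : u ∈ N 𝕜 := by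
    refine tendsto_const_nhds.congr' ?_
    filter_upwards [(tendsto_comap (f := Prod.fst)).eventually (eventually_ge_atTop M)] with j hj
    rw [hu, if_neg (not_lt.2 hj)]
  have hu3 : ‖z - u‖ ≤ 1 := (norm_le zero_le_one).2 fun j => by
    rw [BoundedContinuousFunction.sub_apply, hu]
    split_ifs with hj
    · simp
    · rw [sub_zero]
      have e : z j = ∑ s ∈ F, ind 𝕜 s j := by simp [z]
      rw [e]
      by_cases h : ∃ s ∈ F, j.2 = code s j.1
      · obtain ⟨s, hs, hsj⟩ := h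
        rw [Finset.sum_eq_single s]
        · rw [ind_apply, if_pos hsj]; simp
        · intro t ht hts
          rw [ind_apply, if_neg]
          rw [hsj]
          exact hM _ (not_lt.1 hj) s hs t ht hts.symm
        · exact fun h => absurd hs h
      · rw [Finset.sum_eq_zero]
        · simp
        · intro t ht
          rw [ind_apply, if_neg fun e => h ⟨t, ht, e⟩]
  have h5 : ‖L z i‖ ≤ ‖L‖ + 1 / 2 * k := by
    refine ((L z).norm_coe_le_norm i).trans ?_
    have e : L z = L (z - u) + L u := by rw [← map_add, sub_add_cancel]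
    rw [e]
    refine (norm_add_le _ _).trans (add_le_add ?_ ((h2 u hu2).trans (by linarith)))
    simpa using L.le_opNorm_of_le hu3
  have h6 : ‖L z i - k‖ ≤ 1 / 4 * k := by
    have e : L z i - k = ∑ s ∈ F, (L (ind 𝕜 s) i - 1) := by
      simp [z, Finset.sum_sub_distrib, hFk]
    rw [e]
    refine (norm_sum_le _ _).trans ?_
    rw [← hFk, mul_comm, ← nsmul_eq_mul, ← Finset.sum_const]
    refine Finset.sum_le_sum fun s hs => ?_
    have h7 : φ s = i := hF hs
    rw [← h7]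
    exact (hφ s).le
  have h7 : (k : ℝ) ≤ ‖L z i‖ + ‖L z i - k‖ := by
    have := norm_sub_le (L z i) (L z i - k)
    simpa using this
  linarith

lemma lift (w : (ℕ × ℕ →ᵇ 𝕜) ⧸ N 𝕜) : ∃ z, (N 𝕜).mkQL z = w ∧ ‖z‖ ≤ 2 * ‖w‖ := by
  by_cases h : w = 0
  · exact ⟨0, by simp [h], by simp [h]⟩
  · obtain ⟨z, h1, h2⟩ := Submodule.Quotient.norm_mk_lt w (norm_pos_iff.2 h)
    exact ⟨z, h1, by linarith⟩

lemma mk_le (z : ℕ × ℕ →ᵇ 𝕜) : ‖(N 𝕜).mkQL z‖ ≤ ‖z‖ := Submodule.Quotient.norm_mk_le _ z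

theorem exists_nonsplit : ∃ (Z W : Type) (_ : NormedAddCommGroup Z) (_ : NormedSpace 𝕜 Z)
    (_ : CompleteSpace Z) (_ : NormedAddCommGroup W) (_ : NormedSpace 𝕜 W) (_ : CompleteSpace W)
    (q : Z →L[𝕜] W), (∀ w, ∃ z, q z = w ∧ ‖z‖ ≤ 2 * ‖w‖) ∧
    ∀ L : Z →L[𝕜] Z, (∀ z, q (L z) = q z) → (∀ z, q z = 0 → ‖L z‖ ≤ 1 / 2 * ‖z‖) → False := by
  refine ⟨ℕ × ℕ →ᵇ 𝕜, (ℕ × ℕ →ᵇ 𝕜) ⧸ N 𝕜, inferInstance, inferInstance, inferInstance,
    inferInstance, inferInstance, inferInstance, (N 𝕜).mkQL, lift 𝕜, fun L h1 h2 => ?_⟩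
  refine nonsplit 𝕜 L (fun z => ?_) fun z hz => h2 z ?_
  · exact (Submodule.Quotient.eq _).1 (h1 z)
  · exact (Submodule.Quotient.mk_eq_zero _).2 hz

end Pool.Agent.H.MP_0764b2_an
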