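import Mathlib
import Pool.Agent.H.MP_0764b2_an.A

set_option autoImplicit false
set_option linter.unusedSectionVars false

namespace Pool.Agent.H.MP_0764b2_an

open Filter Topology BoundedContinuousFunction

variable {𝕜 : Type} [RCLike 𝕜]

lemma exists_op {E F : Type} [NormedAddCommGroup E] [NormedSpace 𝕜 E] [NormedAddCommGroup F]
    [NormedSpace 𝕜 F] (A : ℤ → E →L[𝕜] F) (s : ℤ → ℤ) (K : ℝ) (hK0 : 0 ≤ K)
    (hK : ∀ k x, ‖A k x‖ ≤ K * ‖x‖) :
    ∃ T : (ℤ →ᵇ E) →L[𝕜] (ℤ →ᵇ F), ∀ f k, T f k = A k (f (s k)) := by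
  have hb : ∀ (f : ℤ →ᵇ E) k, ‖A k (f (s k))‖ ≤ K * ‖f‖ := fun f k =>
    (hK _ _).trans (mul_le_mul_of_nonneg_left (f.norm_coe_le_norm _) hK0)
  let T : (ℤ →ᵇ E) →ₗ[𝕜] (ℤ →ᵇ F) :=
    { toFun := fun f => ofNormedAddCommGroupDiscrete (fun k => A k (f (s k))) (K * ‖f‖) (hb f)
      map_add' := fun f g => by ext k; simp
      map_smul' := fun a f => by ext k; simp }
  exact ⟨T.mkContinuous K fun f => (norm_le (by positivity)).2 (hb f), fun _ _ => rfl⟩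

lemma exists_rec {Z : Type} (F G : ℤ → Z → Z) (h : ∀ k x, F k (G k x) = x) (v0 : Z) :
    ∃ v : ℤ → Z, v 0 = v0 ∧ ∀ k, v k = F k (v (k + 1)) := by
  let pos : ℕ → Z := fun n => Nat.rec v0 (fun n x => G n x) n
  let neg : ℕ → Z := fun n => Nat.rec v0 (fun n x => F (Int.negSucc n) x) n
  refine ⟨fun k => Int.rec pos (fun n => neg (n + 1)) k, rfl, fun k => ?_⟩
  cases k with
  | ofNat n => exact (h n (pos n)).symm
  | negSucc n =>
    cases n with
    | zero => rfl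
    | succ n => rfl

variable (𝕜) in
noncomputable def c (k : ℤ) : 𝕜 := if 0 ≤ k then 2 else 2⁻¹
variable (𝕜) in
noncomputable def r (k : ℤ) : 𝕜 := if 0 ≤ k then 1 else (4 : 𝕜) ^ (-k)

lemma c_ne (k : ℤ) : c 𝕜 k ≠ 0 := by unfold c; split_ifs <;> norm_num
lemma r_ne (k : ℤ) : r 𝕜 k ≠ 0 := by
  unfold r; split_ifs
  · norm_num
  · exact zpow_ne_zero _ (by norm_num)
lemma c_le (k : ℤ) : ‖c 𝕜 k‖ ≤ 2 := by unfold c; split_ifs <;> norm_num
lemma c_inv_le (k : ℤ) : ‖(c 𝕜 k)⁻¹‖ ≤ 2 := by unfold c; split_ifs <;> norm_num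
lemma rc (k : ℤ) : r 𝕜 k * c 𝕜 k = 2 * r 𝕜 (k + 1) := by
  unfold r c
  by_cases h : 0 ≤ k
  · simp [h, show 0 ≤ k + 1 by omega]
  · have e : (4 : 𝕜) ^ (-k) = 4 * 4 ^ (-(k + 1)) := by
      rw [← zpow_one_add₀ (by norm_num)]; congr 1; ring
    rw [if_neg h, if_neg h, e]
    split_ifs with h2
    · have : k + 1 = 0 := by omega
      rw [this]; norm_num
    · ring

variable {Z W : Type} [NormedAddCommGroup Z] [NormedSpace 𝕜 Z] [CompleteSpace Z]
  [NormedAddCommGroup W] [NormedSpace 𝕜 W] [CompleteSpace W] (q : Z →L[𝕜] W)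

lemma diag (hq : ∀ w, ∃ z, q z = w ∧ ‖z‖ ≤ 2 * ‖w‖) (ζ : ℤ → Z) (δ : ℝ) (h1 : ∀ k, ‖ζ k‖ ≤ δ)
    (h2 : ∀ k, ‖r 𝕜 k • q (ζ k)‖ ≤ δ) :
    ∃ v : ℤ → Z, (∀ k, v k - c 𝕜 k • v (k + 1) = ζ k) ∧ (∀ k, ‖v k‖ ≤ 2 * δ) ∧
      ∀ k, ‖r 𝕜 k • q (v k)‖ ≤ 2 * δ := by
  have hδ : 0 ≤ δ := (norm_nonneg _).trans (h1 0)
  obtain ⟨η, hη⟩ : ∃ η : ℤ → W, η = fun k => r 𝕜 k • q (ζ k) := ⟨_, rfl⟩
  have h3 : ∀ k, ‖η k‖ ≤ δ := by rw [hη]; exact h2
  have hb : ∀ (k : ℤ) (i : ℕ), ‖(2⁻¹ : 𝕜) ^ (i + 1) • η (k - 1 - i)‖ ≤ δ / 2 / 2 ^ i := by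
    intro k i
    rw [norm_smul, norm_pow, norm_inv, RCLike.norm_two]
    calc _ ≤ (2⁻¹ : ℝ) ^ (i + 1) * δ := mul_le_mul_of_nonneg_left (h3 _) (by positivity)
      _ = _ := by rw [inv_pow, pow_succ]; field_simp
  have hs : ∀ k : ℤ, Summable fun i : ℕ => (2⁻¹ : 𝕜) ^ (i + 1) • η (k - 1 - i) := fun k =>
    Summable.of_norm_bounded (summable_geometric_two' δ) (hb k)
  let p : ℤ → W := fun k => -∑' i : ℕ, (2⁻¹ : 𝕜) ^ (i + 1) • η (k - 1 - i)
  have hp1 : ∀ k, ‖p k‖ ≤ δ := fun k => by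
    rw [norm_neg]
    exact tsum_of_norm_bounded (hasSum_geometric_two' δ) (hb k)
  have hp2 : ∀ k, p k - (2 : 𝕜) • p (k + 1) = η k := by
    intro k
    have e1 := (hs (k + 1)).tsum_eq_zero_add
    have e2 := (hs k).tsum_const_smul (2⁻¹ : 𝕜)
    have e3 : ∀ i : ℕ, (2⁻¹ : 𝕜) ^ (i + 1 + 1) • η (k + 1 - 1 - ((i + 1 : ℕ) : ℤ)) =
        (2⁻¹ : 𝕜) • (2⁻¹ : 𝕜) ^ (i + 1) • η (k - 1 - i) := by
      intro i
      rw [smul_smul, ← pow_succ']
      congr 2
      push_cast; ring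
    simp only [e3] at e1
    simp only [p]
    rw [e1, e2]
    simp only [zero_add, pow_one, Nat.cast_zero, sub_zero, add_sub_cancel_right, smul_neg, smul_add,
      smul_smul]
    rw [mul_inv_cancel₀ (by norm_num : (2 : 𝕜) ≠ 0), one_smul, one_smul]
    abel
  clear_value p
  obtain ⟨v0, hv0, hv1⟩ := hq (p 0)
  obtain ⟨v, hv2, hv3⟩ := exists_rec (fun k x => ζ k + c 𝕜 k • x)
    (fun k x => (c 𝕜 k)⁻¹ • (x - ζ k)) (fun k x => by
      rw [smul_smul, mul_inv_cancel₀ (c_ne k), one_smul]; abel) v0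
  have h4 : ∀ k, r 𝕜 k • q (v k) - (2 : 𝕜) • r 𝕜 (k + 1) • q (v (k + 1)) = η k := by
    intro k
    rw [hv3 k, hη, map_add, map_smul, smul_add, smul_smul, smul_smul, rc]
    simp
  have h5 : ∀ k, r 𝕜 k • q (v k) = p k := by
    intro k
    induction k using Int.induction_on with
    | zero => simp [r, hv2, hv0]
    | succ n ih =>
      have := (h4 n).trans (hp2 n).symm
      rw [ih, sub_right_inj] at this
      exact smul_right_injective _ (by norm_num : (2 : 𝕜) ≠ 0) this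
    | pred n ih =>
      have := (h4 (-n - 1)).trans (hp2 _).symm
      rw [sub_add_cancel, ih, sub_left_inj] at this
      exact this
  refine ⟨v, fun k => by rw [hv3 k]; simp, fun k => ?_, fun k => by rw [h5]; linarith [hp1 k]⟩
  induction k using Int.induction_on with
  | zero => rw [hv2]; linarith [hp1 0]
  | succ n ih =>
    have e := hv3 n
    rw [c, if_pos (by omega)] at e
    have e2 : (2 : 𝕜) • v (n + 1) = v n - ζ n := by rw [e]; simp
    have e3 := congrArg norm e2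
    rw [norm_smul, RCLike.norm_two] at e3
    linarith [norm_sub_le (v n) (ζ n), h1 n]
  | pred n ih =>
    have e := hv3 (-n - 1)
    rw [c, if_neg (by omega), sub_add_cancel] at e
    rw [e]
    refine (norm_add_le _ _).trans ?_
    rw [norm_smul, norm_inv, RCLike.norm_two]
    linarith [h1 (-n - 1)]

def X : Submodule 𝕜 (ℤ →ᵇ Z × W) where
  carrier := {f | ∀ k, (f k).2 = r 𝕜 k • q (f k).1}
  add_mem' := fun {f g} hf hg k => by simp [hf k, hg k]
  zero_mem' := fun k => by simp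
  smul_mem' := fun a f hf k => by simp [hf k, smul_comm a]

instance X_complete : CompleteSpace (X q) := by
  apply IsClosed.completeSpace_coe (hs := ?_)
  change IsClosed {f : ℤ →ᵇ Z × W | ∀ k, (f k).2 = r 𝕜 k • q (f k).1}
  rw [Set.ofPred_forall]
  refine isClosed_iInter fun k => isClosed_eq ?_ ?_
  · fun_prop
  · fun_prop

structure Model {Y : Type} [NormedAddCommGroup Y] [NormedSpace 𝕜 Y] (π : ℤ → Y →L[𝕜] Z) : Prop where
  ext : ∀ f g, (∀ k, π k f = π k g) → f = g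
  le1 : ∀ f k, ‖π k f‖ ≤ ‖f‖
  le2 : ∀ f k, ‖r 𝕜 k • q (π k f)‖ ≤ ‖f‖
  mk' : ∀ (v : ℤ → Z) (K : ℝ), (∀ k, ‖v k‖ ≤ K) → (∀ k, ‖r 𝕜 k • q (v k)‖ ≤ K) →
    ∃ f, (∀ k, π k f = v k) ∧ ‖f‖ ≤ K

lemma exists_model : ∃ (Y : Type) (_ : NormedAddCommGroup Y) (_ : NormedSpace 𝕜 Y)
    (_ : CompleteSpace Y) (π : ℤ → Y →L[𝕜] Z), Model q π := by
  refine ⟨X q, inferInstance, inferInstance, inferInstance,
    fun k => ContinuousLinearMap.fst 𝕜 Z W ∘L evalCLM 𝕜 k ∘L (X q).subtypeL, ?_, ?_, ?_, ?_⟩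
  · intro f g h
    refine Subtype.ext (BoundedContinuousFunction.ext fun k => Prod.ext (h k) ?_)
    have : (f.1 k).1 = (g.1 k).1 := h k
    rw [f.2 k, g.2 k, this]
  · exact fun f k => (norm_fst_le _).trans (f.1.norm_coe_le_norm k)
  · intro f k
    change ‖r 𝕜 k • q (f.1 k).1‖ ≤ _
    rw [← f.2 k]
    exact (norm_snd_le _).trans (f.1.norm_coe_le_norm k)
  · intro v K h1 h2
    exact ⟨⟨ofNormedAddCommGroupDiscrete (fun k => (v k, r 𝕜 k • q (v k))) K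
      fun k => norm_prod_le_iff.2 ⟨h1 k, h2 k⟩, fun _ => rfl⟩, fun _ => rfl,
      (norm_le ((norm_nonneg _).trans (h1 0))).2 fun k => norm_prod_le_iff.2 ⟨h1 k, h2 k⟩⟩

variable {q} {Y : Type} [NormedAddCommGroup Y] [NormedSpace 𝕜 Y] {π : ℤ → Y →L[𝕜] Z}

lemma Model.op (h : Model q π) {E : Type} [NormedAddCommGroup E] [NormedSpace 𝕜 E]
    (A : ℤ → E →L[𝕜] Z) (K : ℝ) (h1 : ∀ x k, ‖A k x‖ ≤ K * ‖x‖)
    (h2 : ∀ x k, ‖r 𝕜 k • q (A k x)‖ ≤ K * ‖x‖) : ∃ S : E →L[𝕜] Y, ∀ x k, π k (S x) = A k x := by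
  choose f hf1 hf2 using fun x => h.mk' (fun k => A k x) _ (h1 x) (h2 x)
  let S : E →ₗ[𝕜] Y :=
    { toFun := f
      map_add' := fun a b => h.ext _ _ fun k => by simp [hf1]
      map_smul' := fun a b => h.ext _ _ fun k => by simp [hf1] }
  exact ⟨S.mkContinuous K hf2, hf1⟩

lemma Model.exists_T (h : Model q π) :
    ∃ T : Y ≃L[𝕜] Y, ∀ f k, π k (T f) = c 𝕜 k • π (k + 1) f := by
  obtain ⟨A, hA⟩ := h.op (fun k => c 𝕜 k • π (k + 1)) 2
    (fun x k => by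
      rw [_root_.smul_apply, norm_smul]
      exact mul_le_mul (c_le k) (h.le1 _ _) (norm_nonneg _) zero_le_two)
    (fun x k => by
      rw [_root_.smul_apply, map_smul, smul_smul, rc, mul_smul, norm_smul, RCLike.norm_two]
      exact mul_le_mul_of_nonneg_left (h.le2 _ _) zero_le_two)
  obtain ⟨B, hB⟩ := h.op (fun k => (c 𝕜 (k - 1))⁻¹ • π (k - 1)) 2
    (fun x k => by
      rw [_root_.smul_apply, norm_smul]
      exact mul_le_mul (c_inv_le _) (h.le1 _ _) (norm_nonneg _) zero_le_two)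
    (fun x k => by
      have e : r 𝕜 k * (c 𝕜 (k - 1))⁻¹ = 2⁻¹ * r 𝕜 (k - 1) := by
        have := rc (𝕜 := 𝕜) (k - 1)
        rw [sub_add_cancel] at this
        have h2 := c_ne (𝕜 := 𝕜) (k - 1)
        field_simp
        linear_combination -this
      rw [_root_.smul_apply, map_smul, smul_smul, e, mul_smul, norm_smul, norm_inv, RCLike.norm_two]
      exact mul_le_mul (by norm_num) (h.le2 _ _) (norm_nonneg _) zero_le_two)
  simp only [_root_.smul_apply] at hA hB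
  refine ⟨ContinuousLinearEquiv.equivOfInverse A B (fun f => h.ext _ _ fun k => ?_)
    (fun f => h.ext _ _ fun k => ?_), hA⟩
  · rw [hB, hA, smul_smul, inv_mul_cancel₀ (c_ne _), one_smul, sub_add_cancel]
  · rw [hA, hB, smul_smul, add_sub_cancel_right, mul_inv_cancel₀ (c_ne _), one_smul]

lemma Model.shadow (h : Model q π) (hq : ∀ w, ∃ z, q z = w ∧ ‖z‖ ≤ 2 * ‖w‖) (T : Y ≃L[𝕜] Y)
    (hT : ∀ f k, π k (T f) = c 𝕜 k • π (k + 1) f) (z : ℤ → Y) (δ : ℝ) (hz : ∀ n, ‖z n‖ ≤ δ) :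
    ∃ y : ℤ → Y, (∀ n, y (n + 1) - T (y n) = z n) ∧ ∀ n, ‖y n‖ ≤ 2 * δ := by
  choose v h1 h2 h3 using fun j : ℤ => diag q hq (fun k => π k (z (j - k - 1))) δ
    (fun k => (h.le1 _ k).trans (hz _)) fun k => (h.le2 _ k).trans (hz _)
  choose y hy1 hy2 using fun n : ℤ => h.mk' (fun k => v (n + k) k) (2 * δ) (fun k => h2 _ _)
    fun k => h3 _ _
  refine ⟨y, fun n => h.ext _ _ fun k => ?_, hy2⟩
  have := h1 (n + 1 + k) k
  rw [show n + 1 + k - k - 1 = n by ring] at this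
  rw [← this, map_sub, hT, hy1, hy1, show n + (k + 1) = n + 1 + k by ring]

lemma Model.no_right_inv (h : Model q π) (hq : ∀ L : Z →L[𝕜] Z, (∀ z, q (L z) = q z) →
      (∀ z, q z = 0 → ‖L z‖ ≤ 1 / 2 * ‖z‖) → False) (T : Y ≃L[𝕜] Y)
    (hT : ∀ f k, π k (T f) = c 𝕜 k • π (k + 1) f) (R : Y →L[𝕜] Y)
    (hR : ∀ y, T (R y) - R y = y) : False := by
  obtain ⟨m, hm⟩ := pow_unbounded_of_one_lt (2 * ‖R‖) (one_lt_two (α := ℝ))
  obtain ⟨k0, hk0⟩ : ∃ k0 : ℤ, k0 = -(m + 1 : ℕ) := ⟨_, rfl⟩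
  obtain ⟨J, hJ⟩ := h.op (fun k => if k = k0 then ContinuousLinearMap.id 𝕜 Z else 0)
    (1 + ‖r 𝕜 k0‖ * ‖q‖)
    (fun z k => by
      split_ifs
      · simp only [ContinuousLinearMap.id_apply, add_mul, one_mul, le_add_iff_nonneg_right]
        positivity
      · simp only [_root_.zero_apply, norm_zero]; positivity)
    (fun z k => by
      split_ifs with e
      · rw [ContinuousLinearMap.id_apply, norm_smul, add_mul, one_mul, mul_assoc, e]
        have := mul_le_mul_of_nonneg_left (q.le_opNorm z) (norm_nonneg (r 𝕜 k0))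
        linarith [norm_nonneg z]
      · simp only [_root_.zero_apply, map_zero, smul_zero, norm_zero]; positivity)
  have hJ' : ∀ z k, π k (J z) = if k = k0 then z else 0 := fun z k => by
    rw [hJ]; split_ifs <;> rfl
  refine hq (((2 : 𝕜)⁻¹ ^ (m + 1)) • π 0 ∘L R ∘L J) (fun z => ?_) fun z hz => ?_
  · obtain ⟨x, hx⟩ : ∃ x, x = R (J z) := ⟨_, rfl⟩
    change q ((2 : 𝕜)⁻¹ ^ (m + 1) • π 0 (R (J z))) = q z
    rw [← hx]
    have h1 : ∀ k, c 𝕜 k • π (k + 1) x - π k x = if k = k0 then z else 0 := by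
      intro k
      rw [← hJ', ← hR (J z), ← hT, ← hx, map_sub]
    have h2 : ∀ n : ℕ, n ≤ m → π (-n) x = (2 : 𝕜)⁻¹ ^ n • π 0 x := by
      intro n hn
      induction n with
      | zero => simp
      | succ n ih =>
        have := h1 (-(n + 1 : ℕ))
        rw [if_neg (by omega), c, if_neg (by omega), sub_eq_zero,
          show -((n + 1 : ℕ) : ℤ) + 1 = -n by push_cast; ring, ih (by omega), smul_smul] at this
        rw [← this, pow_succ']
    have h3 : ∀ n : ℕ, r 𝕜 (k0 - n) • q (π (k0 - n) x) = (2 : 𝕜) ^ n • r 𝕜 k0 • q (π k0 x) := by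
      intro n
      induction n with
      | zero => simp
      | succ n ih =>
        have := h1 (k0 - (n + 1 : ℕ))
        rw [if_neg (by omega), sub_eq_zero] at this
        rw [← this, map_smul, smul_smul, rc,
          show k0 - ((n + 1 : ℕ) : ℤ) + 1 = k0 - n by push_cast; ring, mul_smul, ih, smul_smul,
          pow_succ']
    have h4 : r 𝕜 k0 • q (π k0 x) = 0 := by
      by_contra h0
      have h5 := norm_pos_iff.2 h0
      obtain ⟨n, hn⟩ := pow_unbounded_of_one_lt (‖x‖ / ‖r 𝕜 k0 • q (π k0 x)‖) (one_lt_two (α := ℝ))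
      have := h.le2 x (k0 - n)
      rw [h3, norm_smul, norm_pow, RCLike.norm_two] at this
      rw [div_lt_iff₀ h5] at hn
      linarith
    have h5 := (smul_eq_zero.1 h4).resolve_left (r_ne _)
    have h6 := h1 k0
    rw [if_pos rfl, c, if_neg (by omega),
      show k0 + 1 = -m by omega, h2 m le_rfl, smul_smul, ← pow_succ'] at h6
    rw [← h6, map_sub, h5, sub_zero]
  · change ‖(2 : 𝕜)⁻¹ ^ (m + 1) • π 0 (R (J z))‖ ≤ _
    have h1 : ‖J z‖ ≤ ‖z‖ := by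
      obtain ⟨f, hf1, hf2⟩ := h.mk' (fun k => if k = k0 then z else 0) ‖z‖
        (fun k => by split_ifs <;> simp) (fun k => by split_ifs <;> simp [hz])
      rwa [h.ext (J z) f fun k => by rw [hJ', hf1]]
    have h2 : ‖π 0 (R (J z))‖ ≤ ‖R‖ * ‖z‖ := (h.le1 _ _).trans (R.le_opNorm_of_le h1)
    rw [norm_smul, norm_pow, norm_inv, RCLike.norm_two, inv_pow, inv_mul_le_iff₀ (by positivity),
      pow_succ]
    nlinarith [norm_nonneg z, norm_nonneg R]

lemma Model.exists_D (h : Model q π) :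
    ∃ D : (ℤ →ᵇ Y) →L[𝕜] Y, ∀ x k, π k (D x) = π k (x k) :=
  h.op (fun k => π k ∘L evalCLM 𝕜 k) 1
    (fun x k => by rw [one_mul]; exact (h.le1 _ _).trans (x.norm_coe_le_norm k))
    (fun x k => by rw [one_mul]; exact (h.le2 _ _).trans (x.norm_coe_le_norm k))

lemma right_inv [CompleteSpace Y] (T : Y ≃L[𝕜] Y) (M N : Submodule 𝕜 Y)
    (hM : IsClosed (M : Set Y)) (hN : IsClosed (N : Set Y)) (hc : IsCompl M N)
    (A : M →L[𝕜] M) (B : N →L[𝕜] N) (hA : ∀ x, (A x : Y) = T x) (hB : ∀ x, (B x : Y) = T.symm x)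
    (uA : IsUnit (1 - A)) (uB : IsUnit (1 - B)) :
    ∃ R : Y →L[𝕜] Y, ∀ y, T (R y) - R y = y := by
  obtain ⟨A', hA'⟩ := uA.exists_right_inv
  obtain ⟨B', hB'⟩ := uB.exists_right_inv
  have h1 : ∀ x : M, T (A' x) - A' x = -x := by
    intro x
    have := congrArg (fun F : M →L[𝕜] M => (F x : Y)) hA'
    simp only [mul_apply_eq_comp, _root_.sub_apply, one_apply_eq_self, Submodule.coe_sub, hA] at this
    rw [← this]; abel
  have h2 : ∀ x : N, T (B' (B x)) - B' (B x) = x := by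
    intro x
    have := congrArg (fun F : N →L[𝕜] N => T (F (B x) : Y)) hB'
    simpa only [mul_apply_eq_comp, _root_.sub_apply, one_apply_eq_self, Submodule.coe_sub, hB,
      map_sub, ContinuousLinearEquiv.apply_symm_apply] using this
  let e := Submodule.prodEquivOfClosedCompl M N hc hM hN
  refine ⟨(-(M.subtypeL ∘L A')).coprod (N.subtypeL ∘L B' ∘L B) ∘L (e.symm : Y →L[𝕜] M × N),
    fun y => ?_⟩
  obtain ⟨⟨a, b⟩, rfl⟩ := e.surjective y
  have e1 : e (a, b) = a + b := rfl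
  simp only [ContinuousLinearMap.comp_apply, ContinuousLinearEquiv.coe_coe,
    ContinuousLinearEquiv.symm_apply_apply, ContinuousLinearMap.coprod_apply, _root_.neg_apply,
    Submodule.subtypeL_apply, map_add, map_neg]
  rw [e1]
  linear_combination (norm := module) h2 b - h1 a

end Pool.Agent.H.MP_0764b2_an
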